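import Pool.Agent.X39.Near.Logs

/-!
# Lower bounds of Lang's quality for linear forms in logarithms at ALL rational points close to any real number outside a
# set of dimension zero

For nonzero polynomials `P_1, …, P_n` with rational coefficients (constants are allowed) and a rational number `z` consider
the positive rational numbers `a_j = |P_j (z)|`, of height at most a power of the height `T` of `z`, and the linear forms
`b_1 log a_1 + … + b_n log a_n` with `|b_j| ≤ T ^ A`. The theorem of Baker gives lower bounds `exp (-C (log T) ^ (n + 1))`; the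
conjecture of Lang predicts a fixed power `T ^ (-C)`. We prove: outside ONE set `E` of real numbers of Hausdorff dimension `0`
(for all `n`, all polynomials, all `A` and all scales) such a bound, with a constant `C` which depends on `x`, the `P_j`, `A`
and `ω`, is true for every real `x`, all large `T`, ALL rational `z` with numerator and denominator at most `T` and
`|z - x| ≤ T ^ (-ω)`, and ALL these `b` except those for which `∏ P_j ^ b_j` is a constant polynomial. Rational functions
`P_j / Q_j` are covered, with the coefficients `b_j` and `- b_j`.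

Proof: write the `P_j` as products of constants and different monic irreducible polynomials `p_k`. Their logarithms are
algebraically independent over `ℂ(z)`; hence (`Pool.Agent.X39.Near`) the numbers `log |p_k (z)|` satisfy no relation of bounded
degree with coefficients of polynomial size built from the logarithms of the constants, even approximately.
-/

set_option autoImplicit false

open Polynomial MeasureTheory

namespace Pool.Agent.Results.MP_90c6bd_nt.ApproximationsOfAllNumbers

/-- The product of the `P_j ^ b_j` is constant. -/
def ConstantProduct {n : ℕ} (P : Fin n → ℚ[X]) (b : Fin n → ℤ) : Prop :=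
  ∃ c : ℚ, ∏ j, P j ^ (b j).toNat = C c * ∏ j, P j ^ (-b j).toNat

/-- The linear form `∑ b_j log a_j` in the logarithms of the positive rational numbers `a_j = |P_j (z)|`. -/
noncomputable def form {n : ℕ} (P : Fin n → ℚ[X]) (b : Fin n → ℤ) (z : ℚ) : ℝ :=
  ∑ j, b j * Real.log (|(P j).eval z| : ℚ)

/-- **Theorem.** There is a set `E` of real numbers of Hausdorff dimension `0` such that for all real `x` outside `E`, all
nonzero rational polynomials `P_1, …, P_n`, all `A` and `ω > 0` there are `C`, `T₁` such that for all `T ≥ T₁`, ALL rational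
`z` with numerator and denominator of absolute value at most `T` and `|z - x| ≤ T ^ (-ω)` and all integers `b_1, …, b_n` of
absolute value at most `T ^ A` for which `∏ P_j ^ b_j` is not constant, the numbers `P_j (z)` are not `0` and
`|∑ b_j log |P_j (z)|| > T ^ (-C)`. -/
theorem result : ∃ E : Set ℝ, dimH E = 0 ∧ ∀ x : ℝ, x ∉ E → ∀ (n : ℕ) (P : Fin n → ℚ[X]), (∀ j, P j ≠ 0) →
    ∀ (A : ℕ) (ω : ℝ), 0 < ω → ∃ C T₁ : ℝ, ∀ T : ℝ, T₁ ≤ T → ∀ z : ℚ, |(z.num : ℝ)| ≤ T → (z.den : ℝ) ≤ T →
      |(z : ℝ) - x| ≤ T ^ (-ω) → ∀ b : Fin n → ℤ, (∀ j, |(b j : ℝ)| ≤ T ^ A) → ¬ ConstantProduct P b →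
        (∀ j, (P j).eval z ≠ 0) ∧ T ^ (-C) < |form P b z| := by
  obtain ⟨E, hE, H⟩ := Pool.Agent.X39.Near.Logs.lang
  refine ⟨E, hE, fun x hx n P hP A ω hω => ?_⟩
  obtain ⟨C, T₁, h⟩ := H x hx n P hP A ω hω
  refine ⟨C, T₁, fun T hT z hz1 hz2 hzx b hb hc => ?_⟩
  have h1 := h T hT z hz1 hz2 hzx b hb hc
  unfold form
  exact_mod_cast h1

end Pool.Agent.Results.MP_90c6bd_nt.ApproximationsOfAllNumbers
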