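import Pool.Agent.Results.MP_90c6bd_nt.SquareRootRationals
import Pool.Agent.X283.DA.CountPack

/-!
# Lang's lower bound for linear forms in logarithms of rationals: the exceptional tuples in short windows at real
powers and at denominators of approximations

For a vector `b` of `n ≥ 1` non-zero integers let `Bad b` be the set of the `n`-tuples `a` of positive rationals with
`|b_1 log a_1 + ... + b_n log a_n| ≤ B ∏ (B_j A_j ^ 2) ^ (-1)` (Lang's inequality with `C = 1` and without the loss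
in the exponent fails), and let `h(a) = A_1 ⋯ A_n` be the product of the heights. `0 ≤ θ ≤ 1`, `0 ≤ β ≤ 1`,
`σ = 1 - β + θ`. For all `t > 1` outside a set of dimension at most `σ` (for almost all `t` if `β > θ`), ALL `n` and
ALL `b` and all large `j` there are at most `w ^ β` tuples `a` in `Bad b` with `|h(a) - w| ≤ w ^ θ`, `w = t ^ κ_j`
(`κ_j / log j → ∞`, for example `κ_j = j`); for `w = j ^ t` the same with dimension `σ + 1 / a`, `t ≥ a`; and for
almost all `x ∈ ℝ ^ d` and all large denominators `w = q` with `‖q x_j - y_j‖ ≤ q ^ (-η_j)`, if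
`η_1 + ... + η_d > σ`.
-/

set_option autoImplicit false

namespace Pool.Agent.Results.MP_90c6bd_nt.CountsAtPowersAndDenominators

open Pool.Agent.X283.DA
open Pool.Agent.Results.MP_90c6bd_nt.SquareRootRationals (hgt Lam Bj maxB prodBA)

/-- The vectors `b` of non-zero integers, of all lengths `n + 1 ≥ 1`. -/
def Vec : Type := Σ n : ℕ, {b : Fin (n + 1) → ℤ // ∀ i, b i ≠ 0}

/-- The tuples `a` of positive rationals for which Lang's inequality with `C = 1` and exponent `1` fails for the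
vector `b`. -/
def Bad (b : Vec) : Set (Fin (b.1 + 1) → ℚ) :=
  {a | (∀ i, 0 < a i) ∧ |Lam a b.2.1| ≤ (maxB b.2.1 : ℝ) / (prodBA a b.2.1 : ℝ)}

/-- The product of the heights `H(a_1) ⋯ H(a_n)`. -/
def height (b : Vec) (a : Fin (b.1 + 1) → ℚ) : ℝ := ((∏ i, hgt (a i) : ℕ) : ℝ)

instance : Countable Vec := by
  unfold Vec
  infer_instance

/-- **Theorem.** Let `0 ≤ θ ≤ 1`, `0 ≤ β ≤ 1`. For the exceptional tuples of all vectors `b` of non-zero integers (of
all lengths) at once, counted by the product of the heights, the assertions `CountAtPowers`, `CountAtExponents` and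
`CountAtDenominators` hold with `σ = 1 - β + θ`. -/
theorem result (θ β : ℝ) (hθ : 0 ≤ θ) (hθ1 : θ ≤ 1) (hβ : 0 ≤ β) (hβ1 : β ≤ 1) :
    CountAtPowers Bad height θ β (1 - β + θ) ∧ CountAtExponents Bad height θ β (1 - β + θ) ∧
      CountAtDenominators Bad height θ β (1 - β + θ) := by
  classical
  refine count_pack Bad height (by norm_num) hθ hθ1 hβ hβ1 fun b => ?_
  obtain ⟨n, b, hb⟩ := b
  intro ε hε
  obtain ⟨C, hC0, hC⟩ := Pool.Agent.Results.MP_90c6bd_nt.SquareRootRationals.result (n + 1) (by omega) ε hε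
  refine ⟨C, fun X hX => ?_⟩
  have hY : 1 ≤ ⌊X⌋₊ := Nat.le_floor (by exact_mod_cast hX)
  obtain ⟨h1, h2⟩ := hC ⌊X⌋₊ hY 0 le_rfl {b} (by
    intro b' hb'
    rw [Finset.mem_singleton] at hb'
    rw [hb']
    exact hb)
  have hsub : {a | a ∈ Bad ⟨n, b, hb⟩ ∧ height ⟨n, b, hb⟩ a ≤ X} ⊆
      Pool.Agent.Results.MP_90c6bd_nt.SquareRootRationals.Exceptional ⌊X⌋₊ 0 {b} := by
    rintro a ⟨⟨h3, h4⟩, h5⟩
    refine ⟨h3, Nat.le_floor h5, b, Finset.mem_singleton_self b, ?_⟩
    rw [add_zero, Real.rpow_one]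
    exact h4
  refine ⟨h1.subset hsub, ?_⟩
  calc ({a | a ∈ Bad ⟨n, b, hb⟩ ∧ height ⟨n, b, hb⟩ a ≤ X}.ncard : ℝ)
      ≤ ((Pool.Agent.Results.MP_90c6bd_nt.SquareRootRationals.Exceptional ⌊X⌋₊ 0 {b}).ncard : ℝ) := by
        exact_mod_cast Set.ncard_le_ncard hsub h1
    _ ≤ C * (({b} : Finset (Fin (n + 1) → ℤ)).card : ℝ) * (⌊X⌋₊ : ℝ) ^ (1 + ε) := h2
    _ = C * (⌊X⌋₊ : ℝ) ^ (1 + ε) := by
        rw [Finset.card_singleton]
        push_cast
        ring
    _ ≤ C * X ^ (1 + ε) := by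
        apply mul_le_mul_of_nonneg_left _ hC0.le
        exact Real.rpow_le_rpow (Nat.cast_nonneg _) (Nat.floor_le (by linarith)) (by linarith)

end Pool.Agent.Results.MP_90c6bd_nt.CountsAtPowersAndDenominators
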