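import Pool.Agent.Results.MP_90c6bd_nt.SquareRootRationals
import Pool.Agent.X174.WinRat

/-!
# Lang's lower bound for ALL tuples of rationals in cubes around the members of thin sequences of points, and large `b`

Let `n ≥ 1`, `κ ≥ 0`. For every sequence `v ≥ 1` of exponent of convergence at most `τ` (for `v_i = (i + 1) ^ a` this is
`1 / a`, for `v_i = b ^ i` it is `0`) and every `ρ < 1`, outside a set of `x ∈ ℝ^(2n)` of Hausdorff dimension at most
`(n (1 + κ) + τ) / (1 - ρ)` the following holds for all but finitely many `i`: ALL positive rationals `a_1, …, a_n` whose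
numerators and denominators are in the cube with centre `x v_i` and side `2 v_i ^ ρ` and ALL nonzero integers `b_j` with
`|b_j| ≤ v_i ^ κ` satisfy Lang's inequality `|Λ| > B ∏ (B_j A_j ^ 2) ^ (-(1 + η))` for every `η ≥ 0` (`C = 1`, and even
without loss in the exponent). The number of exceptions is from the starting result `SquareRootRationals`.
-/

set_option autoImplicit false

open Finset

namespace Pool.Agent.Results.MP_90c6bd_nt.PointsInCubes

open SquareRootRationals (hgt Lam Bj maxB prodBA Exceptional)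

/-- the exponent of convergence of the sequence `v` is at most `τ` -/
def ExpLe (v : ℕ → ℝ) (τ : ℝ) : Prop := ∀ t : ℝ, τ < t → Summable (fun n : ℕ => (v n) ^ (-t))

/-- the vectors of nonzero integers of absolute value at most `m` -/
noncomputable def box (n m : ℕ) : Finset (Fin n → ℤ) := Fintype.piFinset fun _ => (Icc (-(m : ℤ)) m).erase 0

lemma mem_box {n m : ℕ} {b : Fin n → ℤ} : b ∈ box n m ↔ ∀ j, b j ≠ 0 ∧ |b j| ≤ (m : ℤ) := by
  unfold box
  simp only [Fintype.mem_piFinset, mem_erase, mem_Icc, abs_le]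

lemma card_box (n m : ℕ) : (box n m).card = (2 * m) ^ n := by
  unfold box
  rw [Fintype.card_piFinset]
  simp only [prod_const, card_univ, Fintype.card_fin]
  congr 1
  rw [card_erase_of_mem (by simp), Int.card_Icc]
  omega

/-- **Theorem.** Let `n ≥ 1`, `κ ≥ 0`. For every sequence `v ≥ 1` of exponent of convergence at most `τ ≥ 0` and every
`ρ < 1` there is a set `E ⊂ ℝ^(2n)` of Hausdorff dimension at most `(n (1 + κ) + τ) / (1 - ρ)` such that for each `x` outside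
`E`, for all but finitely many `i`, for ALL positive rationals `a_1, …, a_n` with
`|num a_j - x_(j,0) v_i| ≤ v_i ^ ρ` and `|den a_j - x_(j,1) v_i| ≤ v_i ^ ρ`, ALL nonzero integers `b_1, …, b_n` of absolute
value at most `v_i ^ κ` and all `η ≥ 0` Lang's inequality `B / (∏ B_j A_j ^ 2) ^ (1 + η) < |Λ|` holds. The sequences
`v_i = (i + 1) ^ a` and `v_i = b ^ i` have exponent of convergence at most `1 / a` and `0`. -/
theorem result :
    (∀ (n : ℕ), 1 ≤ n → ∀ κ : ℝ, 0 ≤ κ →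
      ∀ (v : ℕ → ℝ) (τ ρ : ℝ), (∀ i, 1 ≤ v i) → 0 ≤ τ → ExpLe v τ → ρ < 1 →
      ∃ E : Set (Fin n × Fin 2 → ℝ), dimH E ≤ ENNReal.ofReal ((n * (1 + κ) + τ) / (1 - ρ)) ∧
        ∀ x : Fin n × Fin 2 → ℝ, x ∉ E → ∃ i₀ : ℕ, ∀ i : ℕ, i₀ ≤ i →
          ∀ a : Fin n → ℚ, (∀ j, 0 < a j) →
            (∀ j, |((a j).num : ℝ) - x (j, 0) * v i| ≤ (v i) ^ ρ ∧
              |((a j).den : ℝ) - x (j, 1) * v i| ≤ (v i) ^ ρ) →
            ∀ b : Fin n → ℤ, (∀ j, b j ≠ 0 ∧ |(b j : ℝ)| ≤ (v i) ^ κ) → ∀ η : ℝ, 0 ≤ η →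
              (maxB b : ℝ) / (prodBA a b : ℝ) ^ (1 + η) < |Lam a b|) ∧
    (∀ a : ℝ, 0 < a → ExpLe (fun n : ℕ => ((n : ℝ) + 1) ^ a) (1 / a)) ∧
    (∀ b : ℝ, 1 < b → ExpLe (fun n : ℕ => b ^ n) 0) := by
  refine ⟨fun n hn κ hκ v τ ρ hv hτ hE hρ => ?_, fun κ hκ => Pool.Agent.Y854.GM.expLe_pow κ hκ,
    fun b hb => Pool.Agent.Y854.GM.expLe_geom b hb⟩
  have hvp : ∀ i, 0 < v i := fun i => lt_of_lt_of_le one_pos (hv i)
  have hn1 : (1 : ℝ) ≤ n := by exact_mod_cast hn
  have hn0 : (0 : ℝ) < n := by linarith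
  have key : ∀ R : ℕ, ∃ E : Set (Fin n × Fin 2 → ℝ), dimH E ≤ ENNReal.ofReal ((n * (1 + κ) + τ) / (1 - ρ)) ∧
      (1 ≤ R → ∀ x : Fin n × Fin 2 → ℝ, x ∉ E → ∃ i₀ : ℕ, ∀ i : ℕ, i₀ ≤ i →
        ∀ a ∈ Exceptional ⌊((R : ℝ) * v i) ^ n⌋₊ 0 (box n ⌊(v i) ^ κ⌋₊),
          ¬ ∀ j, |Pool.Agent.X174.numDen a j - x j * v i| ≤ (v i) ^ ρ) := by
    intro R
    by_cases hR : 1 ≤ R
    swap
    · exact ⟨∅, by simp, fun h => absurd h hR⟩
    have hR1 : (1 : ℝ) ≤ R := by exact_mod_cast hR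
    obtain ⟨E, hE1, hE2⟩ := Pool.Agent.X174.windowsVecV (κ := Fin n × Fin 2)
      (fun i => Exceptional ⌊((R : ℝ) * v i) ^ n⌋₊ 0 (box n ⌊(v i) ^ κ⌋₊))
      (fun _ a j => Pool.Agent.X174.numDen a j) hv hτ hE (s := n * (1 + κ)) (by positivity) hρ (by
        intro ε hε
        obtain ⟨C, hC, hC1⟩ := SquareRootRationals.result n hn (ε / n) (by positivity)
        refine ⟨C * 2 ^ n * ((R : ℝ) ^ n) ^ (1 + ε / n), 0, fun i _ => ?_⟩
        have hRv : 1 ≤ (R : ℝ) * v i := by nlinarith [hv i]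
        have hRvn : 1 ≤ ((R : ℝ) * v i) ^ n := one_le_pow₀ hRv
        have hY : 1 ≤ ⌊((R : ℝ) * v i) ^ n⌋₊ := Nat.le_floor (by exact_mod_cast hRvn)
        obtain ⟨h1, h2⟩ := hC1 _ hY 0 le_rfl (box n ⌊(v i) ^ κ⌋₊) (fun b hb j => (mem_box.1 hb j).1)
        refine ⟨h1, h2.trans ?_⟩
        rw [card_box]
        have h3 : ((⌊(v i) ^ κ⌋₊ : ℕ) : ℝ) ≤ (v i) ^ κ := Nat.floor_le (Real.rpow_nonneg (hvp i).le _)
        have h4 : ((⌊((R : ℝ) * v i) ^ n⌋₊ : ℕ) : ℝ) ≤ ((R : ℝ) * v i) ^ n := Nat.floor_le (by positivity)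
        have h5 : (((2 * ⌊(v i) ^ κ⌋₊) ^ n : ℕ) : ℝ) ≤ 2 ^ n * (v i) ^ (n * κ) := by
          push_cast
          rw [mul_pow]
          apply mul_le_mul_of_nonneg_left _ (by positivity)
          calc ((⌊(v i) ^ κ⌋₊ : ℕ) : ℝ) ^ n ≤ ((v i) ^ κ) ^ n := pow_le_pow_left₀ (Nat.cast_nonneg _) h3 n
            _ = (v i) ^ (n * κ) := by
                rw [← Real.rpow_natCast, ← Real.rpow_mul (hvp i).le]
                congr 1
                ring
        have h6 : ((⌊((R : ℝ) * v i) ^ n⌋₊ : ℕ) : ℝ) ^ (1 + ε / n) ≤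
            ((R : ℝ) ^ n) ^ (1 + ε / n) * (v i) ^ (n + ε) := by
          calc ((⌊((R : ℝ) * v i) ^ n⌋₊ : ℕ) : ℝ) ^ (1 + ε / n) ≤ (((R : ℝ) * v i) ^ n) ^ (1 + ε / n) :=
                Real.rpow_le_rpow (Nat.cast_nonneg _) h4 (by positivity)
            _ = ((R : ℝ) ^ n) ^ (1 + ε / n) * ((v i) ^ n) ^ (1 + ε / n) := by
                rw [mul_pow, Real.mul_rpow (by positivity) (pow_nonneg (hvp i).le n)]
            _ = _ := by
                congr 1
                rw [← Real.rpow_natCast (v i) n, ← Real.rpow_mul (hvp i).le]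
                congr 1
                field_simp
        calc C * (((2 * ⌊(v i) ^ κ⌋₊) ^ n : ℕ) : ℝ) * ((⌊((R : ℝ) * v i) ^ n⌋₊ : ℕ) : ℝ) ^ (1 + ε / n)
            ≤ C * (2 ^ n * (v i) ^ (n * κ)) * (((R : ℝ) ^ n) ^ (1 + ε / n) * (v i) ^ (n + ε)) := by
              apply mul_le_mul (mul_le_mul_of_nonneg_left h5 hC.le) h6 (Real.rpow_nonneg (Nat.cast_nonneg _) _)
              exact mul_nonneg hC.le (mul_nonneg (by positivity) (Real.rpow_nonneg (hvp i).le _))
          _ = C * 2 ^ n * ((R : ℝ) ^ n) ^ (1 + ε / n) * ((v i) ^ (n * κ) * (v i) ^ (n + ε)) := by ring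
          _ = _ := by
              rw [← Real.rpow_add (hvp i)]
              congr 2
              ring)
    exact ⟨E, hE1, fun _ x hx => hE2 x hx⟩
  choose Es hEs1 hEs2 using key
  refine ⟨⋃ R, Es R, ?_, fun x hx => ?_⟩
  · rw [dimH_iUnion]
    exact iSup_le hEs1
  obtain ⟨R, hR, hRc⟩ := Pool.Agent.X174.le_of_cube x
  obtain ⟨i₀, hi₀⟩ := hEs2 R hR x (fun hm => hx (Set.mem_iUnion.2 ⟨_, hm⟩))
  refine ⟨i₀, fun i hi a ha hcube b hb η hη => ?_⟩
  have hcube' : ∀ j, |Pool.Agent.X174.numDen a j - x j * v i| ≤ (v i) ^ ρ := by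
    rintro ⟨j, e⟩
    obtain ⟨h1, h2⟩ := hcube j
    fin_cases e
    · rw [← Pool.Agent.X174.numDen_zero] at h1
      exact h1
    · rw [← Pool.Agent.X174.numDen_one] at h2
      exact h2
  by_contra hcon
  push Not at hcon
  refine hi₀ i hi a ⟨ha, ?_, b, ?_, ?_⟩ hcube'
  · apply Nat.le_floor
    push_cast
    calc ∏ j, ((hgt (a j) : ℕ) : ℝ) ≤ ∏ _j : Fin n, ((R : ℝ) * v i) := by
          apply Finset.prod_le_prod (fun j _ => Nat.cast_nonneg _)
          intro j _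
          have h1 := hRc _ (v i) ρ (hv i) hρ hcube' (j, 0)
          have h2 := hRc _ (v i) ρ (hv i) hρ hcube' (j, 1)
          rw [Pool.Agent.X174.numDen_zero] at h1
          rw [Pool.Agent.X174.numDen_one, abs_of_nonneg (Nat.cast_nonneg _)] at h2
          unfold SquareRootRationals.hgt
          push_cast
          refine max_le ?_ h2
          rw [Nat.cast_natAbs]
          push_cast
          exact h1
      _ = ((R : ℝ) * v i) ^ n := by simp
  · rw [mem_box]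
    intro j
    obtain ⟨h1, h2⟩ := hb j
    refine ⟨h1, ?_⟩
    have h3 : (b j).natAbs ≤ ⌊(v i) ^ κ⌋₊ := Nat.le_floor (by
      rw [Nat.cast_natAbs]
      push_cast
      exact h2)
    rw [Int.abs_eq_natAbs]
    exact_mod_cast h3
  · refine hcon.trans ?_
    have hP : 1 ≤ prodBA a b := by
      unfold SquareRootRationals.prodBA
      apply Nat.one_le_iff_ne_zero.2
      apply Finset.prod_ne_zero_iff.2
      intro j _
      have h1 : 0 < Bj (b j) := lt_of_lt_of_le one_pos (le_max_left _ _)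
      have h2 : 0 < hgt (a j) := SquareRootRationals.hgt_pos _
      positivity
    have hP1 : (1 : ℝ) ≤ (prodBA a b : ℕ) := by exact_mod_cast hP
    apply div_le_div_of_nonneg_left (Nat.cast_nonneg _) (by positivity)
    exact Real.rpow_le_rpow_of_exponent_le hP1 (by linarith)

end Pool.Agent.Results.MP_90c6bd_nt.PointsInCubes
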