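import Pool.Agent.Results.MP_90c6bd_nt.SquareRootRationals
import Pool.Agent.X218.RC.RectDim

/-!
# Lang's inequality for ALL tuples of good approximations of almost all tuples of real numbers

Let `n ≥ 1`, `κ ≥ 0` and `v > 1 + n κ`. For almost all `y ∈ ℝ ^ n` and all `A`, all but finitely many tuples
`a = (a_1, …, a_n)` of positive rationals with `|y_j - a_j| ≤ A q_j ^ (-v)`, `q_j` the denominator of `a_j`, have the following
property: ALL nonzero integers `b_1, …, b_n` with `|b_j| ≤ (A_1 ⋯ A_n) ^ κ` satisfy Lang's inequality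
`|Λ| > B ∏ (B_j A_j ^ 2) ^ (-(1 + η))` for every `η ≥ 0` (`C = 1`, and even without loss in the exponent). For
`κ < 1 / n` this contains `v = 2`: ALL tuples of convergents of `y_1, …, y_n`, chosen independently of each other. The
exceptional set of the `y` has Hausdorff dimension at most `n - 1 + (1 + n κ) / v`, for all `v > 0`.
The number of exceptions is from the starting result `SquareRootRationals`.
-/

set_option autoImplicit false

open MeasureTheory Finset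
open scoped ENNReal

namespace Pool.Agent.Results.MP_90c6bd_nt.TuplesOfConvergents

open SquareRootRationals (hgt Lam Bj maxB prodBA Exceptional)
open Pool.Agent.X149.MetricBalls (Sparse)

/-- the product `A_1 ⋯ A_n` of the heights -/
noncomputable def hprod {n : ℕ} (a : Fin n → ℚ) : ℝ := ∏ j, (hgt (a j) : ℝ)

/-- Lang's inequality with `C = 1` and exponent `1 + η`, for all `η ≥ 0` and all nonzero integers `b_j` with
`|b_j| ≤ (A_1 ⋯ A_n) ^ κ` -/
def Good {n : ℕ} (κ : ℝ) (a : Fin n → ℚ) : Prop :=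
  ∀ b : Fin n → ℤ, (∀ j, b j ≠ 0 ∧ |(b j : ℝ)| ≤ hprod a ^ κ) → ∀ η : ℝ, 0 ≤ η →
    (maxB b : ℝ) / (prodBA a b : ℝ) ^ (1 + η) < |Lam a b|

/-- the vectors of nonzero integers of absolute value at most `m` -/
noncomputable def box (n m : ℕ) : Finset (Fin n → ℤ) := Fintype.piFinset fun _ => (Icc (-(m : ℤ)) m).erase 0

lemma mem_box {n m : ℕ} {b : Fin n → ℤ} : b ∈ box n m ↔ ∀ j, b j ≠ 0 ∧ |b j| ≤ (m : ℤ) := by
  unfold box
  simp only [Fintype.mem_piFinset, mem_erase, mem_Icc, abs_le]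

lemma card_box (n m : ℕ) : (box n m).card = (2 * m) ^ n := by
  unfold box
  rw [Fintype.card_piFinset]
  simp only [prod_const, card_univ, Fintype.card_fin]
  congr 1
  rw [card_erase_of_mem (by simp), Int.card_Icc]
  omega

lemma one_le_hgt (x : ℚ) : (1 : ℝ) ≤ hgt x := by
  have := SquareRootRationals.hgt_pos x
  exact_mod_cast this

lemma one_le_hprod {n : ℕ} (a : Fin n → ℚ) : 1 ≤ hprod a := by
  unfold hprod
  calc (1 : ℝ) = ∏ _j : Fin n, (1 : ℝ) := by simp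
    _ ≤ _ := Finset.prod_le_prod (fun _ _ => zero_le_one) (fun j _ => one_le_hgt (a j))

/-- the exceptional tuples -/
def Exc (n : ℕ) (κ : ℝ) : Set (Fin n → ℚ) := {a | (∀ i, 0 < a i) ∧ ¬ Good κ a}

lemma sparse (n : ℕ) (hn : 1 ≤ n) {κ : ℝ} (hκ : 0 ≤ κ) : Sparse (Exc n κ) hprod (1 + n * κ) := by
  intro ε hε
  obtain ⟨C, hC0, hC⟩ := SquareRootRationals.result n hn ε hε
  refine ⟨C * 2 ^ n, fun X hX => ?_⟩
  have hX0 : (0 : ℝ) < X := by linarith
  have hY : 1 ≤ ⌊X⌋₊ := Nat.le_floor (by exact_mod_cast hX)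
  obtain ⟨h1, h2⟩ := hC ⌊X⌋₊ hY 0 le_rfl (box n ⌊X ^ κ⌋₊) (fun b hb j => (mem_box.1 hb j).1)
  have hsub : {a | a ∈ Exc n κ ∧ hprod a ≤ X} ⊆ Exceptional ⌊X⌋₊ 0 (box n ⌊X ^ κ⌋₊) := by
    rintro a ⟨⟨ha, hbad⟩, haX⟩
    unfold Good at hbad
    push Not at hbad
    obtain ⟨b, hb, η, hη, hle⟩ := hbad
    refine ⟨ha, ?_, b, ?_, ?_⟩
    · apply Nat.le_floor
      push_cast
      exact haX
    · rw [mem_box]
      intro j
      obtain ⟨k1, k2⟩ := hb j
      refine ⟨k1, ?_⟩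
      have k3 : (b j).natAbs ≤ ⌊X ^ κ⌋₊ := Nat.le_floor (by
        rw [Nat.cast_natAbs]
        push_cast
        exact k2.trans (Real.rpow_le_rpow (by linarith [one_le_hprod a]) haX hκ))
      rw [Int.abs_eq_natAbs]
      exact_mod_cast k3
    · refine hle.trans ?_
      have hP : 1 ≤ prodBA a b := by
        unfold SquareRootRationals.prodBA
        apply Nat.one_le_iff_ne_zero.2
        apply Finset.prod_ne_zero_iff.2
        intro j _
        have h1 : 0 < Bj (b j) := lt_of_lt_of_le one_pos (le_max_left _ _)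
        have h2 : 0 < hgt (a j) := SquareRootRationals.hgt_pos _
        positivity
      have hP1 : (1 : ℝ) ≤ (prodBA a b : ℕ) := by exact_mod_cast hP
      apply div_le_div_of_nonneg_left (Nat.cast_nonneg _) (by positivity)
      exact Real.rpow_le_rpow_of_exponent_le hP1 (by linarith)
  refine ⟨h1.subset hsub, ?_⟩
  have h3 : (({a | a ∈ Exc n κ ∧ hprod a ≤ X}.ncard : ℕ) : ℝ) ≤
      ((Exceptional ⌊X⌋₊ 0 (box n ⌊X ^ κ⌋₊)).ncard : ℝ) := by exact_mod_cast Set.ncard_le_ncard hsub h1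
  refine h3.trans (h2.trans ?_)
  rw [card_box]
  have h4 : ((⌊X ^ κ⌋₊ : ℕ) : ℝ) ≤ X ^ κ := Nat.floor_le (Real.rpow_nonneg hX0.le _)
  have h5 : ((⌊X⌋₊ : ℕ) : ℝ) ≤ X := Nat.floor_le hX0.le
  have h6 : (((2 * ⌊X ^ κ⌋₊) ^ n : ℕ) : ℝ) ≤ 2 ^ n * X ^ (n * κ) := by
    push_cast
    rw [mul_pow]
    apply mul_le_mul_of_nonneg_left _ (by positivity)
    calc ((⌊X ^ κ⌋₊ : ℕ) : ℝ) ^ n ≤ (X ^ κ) ^ n := pow_le_pow_left₀ (Nat.cast_nonneg _) h4 n
      _ = X ^ (n * κ) := by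
          rw [← Real.rpow_natCast, ← Real.rpow_mul hX0.le]
          congr 1
          ring
  have h7 : ((⌊X⌋₊ : ℕ) : ℝ) ^ (1 + ε) ≤ X ^ (1 + ε) := Real.rpow_le_rpow (Nat.cast_nonneg _) h5 (by positivity)
  calc C * (((2 * ⌊X ^ κ⌋₊) ^ n : ℕ) : ℝ) * ((⌊X⌋₊ : ℕ) : ℝ) ^ (1 + ε)
      ≤ C * (2 ^ n * X ^ (n * κ)) * X ^ (1 + ε) :=
        mul_le_mul (mul_le_mul_of_nonneg_left h6 hC0.le) h7 (Real.rpow_nonneg (Nat.cast_nonneg _) _)
          (mul_nonneg hC0.le (by positivity))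
    _ = C * 2 ^ n * (X ^ (n * κ) * X ^ (1 + ε)) := by ring
    _ = C * 2 ^ n * X ^ (1 + n * κ + ε) := by
        rw [← Real.rpow_add hX0]
        congr 2
        ring

/-- the exceptional approximations of `y` -/
def Tup {n : ℕ} (κ v A : ℝ) (y : Fin n → ℝ) : Set (Fin n → ℚ) :=
  {a | (∀ j, 0 < a j) ∧ (∀ j, |y j - a j| ≤ A * ((a j).den : ℝ) ^ (-v)) ∧ ¬ Good κ a}

lemma cover {n : ℕ} {κ v A : ℝ} (hv0 : 0 < v) (y : Fin n → ℝ) {R : ℕ} (hR : ‖y‖ + |A| + 1 ≤ R) :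
    Tup κ v A y ⊆ {a | a ∈ Exc n κ ∧ ∀ j, |y j - a j| ≤ (|A| * (R : ℝ) ^ v) * (hgt (a j) : ℝ) ^ (-v)} := by
  have hA0 : 0 ≤ |A| := abs_nonneg A
  have hN1 : (1 : ℝ) ≤ R := by
    have := norm_nonneg y
    linarith
  rintro a ⟨h1, h2, h3⟩
  refine ⟨⟨h1, h3⟩, fun j => ?_⟩
  have hd1 : (1 : ℝ) ≤ ((a j).den : ℝ) := by exact_mod_cast (a j).den_pos
  have hd : ((a j).den : ℝ) ^ (-v) ≤ 1 := Real.rpow_le_one_of_one_le_of_nonpos hd1 (by linarith)
  have hd0 : (0 : ℝ) ≤ ((a j).den : ℝ) ^ (-v) := by positivity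
  have h4 : |y j - a j| ≤ |A| * ((a j).den : ℝ) ^ (-v) :=
    (h2 j).trans (mul_le_mul_of_nonneg_right (le_abs_self A) hd0)
  have h5 : |((a j : ℚ) : ℝ)| ≤ R := by
    have e1 : ‖y j‖ ≤ ‖y‖ := norm_le_pi_norm y j
    rw [Real.norm_eq_abs] at e1
    have e2 : |((a j : ℚ) : ℝ)| ≤ |y j| + |y j - a j| := by
      have := abs_sub (y j) (y j - a j)
      rwa [sub_sub_cancel] at this
    have e3 : |A| * ((a j).den : ℝ) ^ (-v) ≤ |A| := mul_le_of_le_one_right hA0 hd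
    linarith
  have h6 : (hgt (a j) : ℝ) ≤ R * (a j).den := by
    unfold SquareRootRationals.hgt
    push_cast
    refine max_le ?_ (le_mul_of_one_le_left (by linarith) hN1)
    have e1 : ((a j : ℚ) : ℝ) = ((a j).num : ℝ) / ((a j).den : ℝ) := by
      exact_mod_cast congrArg (Rat.cast : ℚ → ℝ) (Rat.num_div_den (a j)).symm
    rw [e1, abs_div, abs_of_pos (show (0 : ℝ) < ((a j).den : ℝ) by linarith), div_le_iff₀ (by linarith)] at h5
    rw [Nat.cast_natAbs]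
    push_cast
    exact h5
  have h7 : ((a j).den : ℝ) ^ (-v) ≤ (R : ℝ) ^ v * (hgt (a j) : ℝ) ^ (-v) := by
    have e0 : (0 : ℝ) < hgt (a j) := by linarith [one_le_hgt (a j)]
    have e1 : (hgt (a j) : ℝ) / R ≤ (a j).den := by
      rw [div_le_iff₀ (by linarith)]
      linarith
    calc ((a j).den : ℝ) ^ (-v) ≤ ((hgt (a j) : ℝ) / R) ^ (-v) :=
          Real.rpow_le_rpow_of_nonpos (by positivity) e1 (by linarith)
      _ = (R : ℝ) ^ v * (hgt (a j) : ℝ) ^ (-v) := by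
          rw [Real.div_rpow e0.le (by linarith), Real.rpow_neg (by linarith : (0 : ℝ) ≤ R), div_inv_eq_mul, mul_comm]
  calc |y j - a j| ≤ |A| * ((a j).den : ℝ) ^ (-v) := h4
    _ ≤ |A| * ((R : ℝ) ^ v * (hgt (a j) : ℝ) ^ (-v)) := mul_le_mul_of_nonneg_left h7 hA0
    _ = (|A| * (R : ℝ) ^ v) * (hgt (a j) : ℝ) ^ (-v) := by ring

/-- **Theorem.** Let `n ≥ 1`, `κ ≥ 0` and `v > 0`. If `v > 1 + n κ`, then for almost all `y ∈ ℝ ^ n` and all `A`, all but
finitely many tuples `a` of positive rationals with `|y_j - a_j| ≤ A (den a_j) ^ (-v)` for all `j` satisfy Lang's inequality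
`B / (∏ B_j A_j ^ 2) ^ (1 + η) < |Λ|` for ALL nonzero integers `b_1, …, b_n` with `|b_j| ≤ (A_1 ⋯ A_n) ^ κ` and all `η ≥ 0`.
For each `A` the set of the `y` which have infinitely many exceptional tuples has Hausdorff dimension at most
`n - 1 + (1 + n κ) / v`. -/
theorem result (n : ℕ) (hn : 1 ≤ n) (κ v : ℝ) (hκ : 0 ≤ κ) (hv0 : 0 < v) :
    (1 + n * κ < v → ∀ᵐ y : Fin n → ℝ, ∀ A : ℝ, (Tup κ v A y).Finite) ∧
    (∀ A : ℝ, dimH {y : Fin n → ℝ | (Tup κ v A y).Infinite} ≤ ENNReal.ofReal (n - 1 + (1 + n * κ) / v)) := by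
  have hnκ : (0 : ℝ) ≤ n * κ := by positivity
  constructor
  · intro hv
    have key := Pool.Agent.X218.RC.rect_null (n := n) (E := Exc n κ) (H := fun a j => (hgt (a j) : ℝ))
      (e := fun a j => ((a j : ℚ) : ℝ)) (fun a j => one_le_hgt (a j)) (κ := 1 + n * κ) (v := v) (sparse n hn hκ)
      (by linarith) hv
    filter_upwards [key] with y hy A
    obtain ⟨R, hR⟩ := exists_nat_ge (‖y‖ + |A| + 1)
    exact (hy (|A| * (R : ℝ) ^ v)).subset (cover hv0 y hR)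
  · intro A
    have h1 : {y : Fin n → ℝ | (Tup κ v A y).Infinite} ⊆ ⋃ R : ℕ, {y : Fin n → ℝ |
        {a | a ∈ Exc n κ ∧ ∀ j, |y j - a j| ≤ (|A| * (R : ℝ) ^ v) * (hgt (a j) : ℝ) ^ (-v)}.Infinite} := by
      intro y hy
      obtain ⟨R, hR⟩ := exists_nat_ge (‖y‖ + |A| + 1)
      rw [Set.mem_iUnion]
      exact ⟨R, fun h => hy (h.subset (cover hv0 y hR))⟩
    refine (dimH_mono h1).trans ?_
    rw [dimH_iUnion]
    exact iSup_le fun R => Pool.Agent.X218.RC.rect_dim hn (E := Exc n κ) (H := fun a j => (hgt (a j) : ℝ))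
      (e := fun a j => ((a j : ℚ) : ℝ)) (fun a j => one_le_hgt (a j)) (κ := 1 + n * κ) (v := v) (sparse n hn hκ)
      (by linarith) hv0 (|A| * (R : ℝ) ^ v)

end Pool.Agent.Results.MP_90c6bd_nt.TuplesOfConvergents
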